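import Pool.Agent.H910R3.ISO.Fin

/-!
# Relative to a random oracle the complete sets of `NP` (of `PSPACE`) form a single 1-degree

Oracles, polynomial-time oracle algorithms, `FP`, `NP`, many-one reductions relative to an oracle
and the measure `randomOracle` on the oracles (every bit is decided by an independent fair coin)
are those of `Pool.Agent.H628R3.RO.Defs` (`Oracle`, `Alg`, `IsFP`, `IsNP`, `Red`, `NPHardRel`,
`randomOracle`); `PSPACE` relative to an oracle is `IsPSPACE` of `Pool.Agent.H620R2.Gauge.Defs`.

The proof. Let `G` be the length doubling function given by the oracle `R`, and let `A` be hard for
`NP`. For `B` in `NP` the set `C` of all `(x, u₁, u₂)` such that `x ∈ B` and `u₁` is in the range of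
`G`, or `u₂` is in the range of `G`, is in `NP`; let `M` reduce it to `A`. Send `x` to
`M (x, G w, v)`, where `w` and `v` are strings of random bits that the oracle holds at positions that
belong to `x` and are too long for the questions of `M` at `(x', ...)` with `|x'| ≤ |x|`. Then `v` is
not in the range of `G` almost surely, so this reduces `B` to `A`. The output differs from every
fixed string `z`, and from every output for another `x'` which is not longer than `x`, up to a
probability that is exponentially small compared with the number of these events: if `z ∉ A`, then
replacing `v` by a string in the range of `G` would make the output different from `z`, if `z ∈ A`,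
then replacing `G w` by a random string would make it different from `z`, and in both cases one may
plant the new string (or unplant the old one) into `G` without `M` noticing. So the reduction is
one-one and length-increasing at all but finitely many lengths, and the finitely many exceptions
are avoided by padding the input.

Teammates proved ten of the eleven lemmas stated in `Pool.Agent.H910R3.ISO.Stmts`.
-/

set_option autoImplicit false

namespace Pool.Agent.Results.MP_8a92de_lc.RandomOracle

open MeasureTheory Pool.Agent.H628R3.RO

/-- For almost every oracle `R`:

* every set `A` that is hard for `NP` relative to `R` under many-one reductions computable in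
  polynomial time relative to `R` is hard for it under such reductions which are, in addition,
  one-one and length-increasing;
* the same for `PSPACE` relative to `R`.

In particular the complete sets of `NP` relative to `R` form a single 1-degree, and so do the
complete sets of `PSPACE` relative to `R`. -/
theorem result : ∀ᵐ R ∂randomOracle,
    (∀ A : Set (List Bool), (∀ B : Set (List Bool), IsNP R B → Red R B A) →
      ∀ B : Set (List Bool), IsNP R B →
        ∃ F : List Bool → List Bool, IsFP R F ∧ Function.Injective F ∧
          (∀ x : List Bool, x.length < (F x).length) ∧ ∀ x, x ∈ B ↔ F x ∈ A) ∧
    (∀ A : Set (List Bool),
      (∀ B : Set (List Bool), Pool.Agent.H620R2.Gauge.IsPSPACE R B → Red R B A) →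
      ∀ B : Set (List Bool), Pool.Agent.H620R2.Gauge.IsPSPACE R B →
        ∃ F : List Bool → List Bool, IsFP R F ∧ Function.Injective F ∧
          (∀ x : List Bool, x.length < (F x).length) ∧ ∀ x, x ∈ B ↔ F x ∈ A) :=
  Pool.Agent.H910R3.ISO.final

end Pool.Agent.Results.MP_8a92de_lc.RandomOracle
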